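import Pool.Agent.Helper29.PhiSig.ThreeB
import Pool.Agent.Helper29.PhiSig.Small

/-!
# MP_9a9f07_nt: composite solutions of `φ(n+12) = φ(n)+12`, `σ(n+12) = σ(n)+12`

A composite solution that does not come from a prime quadruple has a very special shape: one of
`n`, `n + 12` is `p^k q^l` or `2 p^k q^l` with `k + l ≥ 3`.
-/

namespace Pool.Agent.Results.MP_9a9f07_nt.TwoPrimeShape

open Nat ArithmeticFunction Pool.Agent.Helper29.PhiSig

lemma three_case_ne {q : ℕ} (hq : q.Prime) (hq7 : 7 ≤ q) (l : ℕ) : ¬ 3 ∣ q ^ l := by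
  intro h
  have := (Nat.prime_dvd_prime_iff_eq Nat.prime_three hq).1 (Nat.prime_three.dvd_of_dvd_pow h)
  omega

lemma qpar {q l : ℕ} (hq4 : q % 4 = 3) (hq : q.Prime) (hq7 : 7 ≤ q) :
    q ^ l % 3 = 1 ∨ q ^ l % 4 = 3 := by
  rcases Nat.mod_two_eq_zero_or_one l with h | h
  · left
    have h3 : q % 3 ≠ 0 := by
      have := three_case_ne hq hq7 1
      rw [pow_one] at this; omega
    obtain ⟨j, rfl⟩ : ∃ j, l = 2 * j := ⟨l / 2, by omega⟩
    have h2 : q ^ 2 % 3 = 1 := by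
      have : q % 3 = 1 ∨ q % 3 = 2 := by omega
      rw [Nat.pow_mod]
      rcases this with h | h <;> rw [h]
    rw [pow_mul, Nat.pow_mod, h2, one_pow]; norm_num
  · right; exact pow_mod_four_of_odd hq4 h

/-- `3` does not occur in a factorisation `N = e (3^k q^l)` -/
lemma no_three {n q k l : ℕ} (hn : 500 ≤ n) (hs : Sol n) (hq : q.Prime) (hq4 : q % 4 = 3)
    (hq7 : 7 ≤ q) (hk : 0 < k) (hl : 0 < l) :
    ¬ (n = 3 ^ k * q ^ l ∨ n + 12 = 3 ^ k * q ^ l ∨ n = 2 * (3 ^ k * q ^ l) ∨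
      n + 12 = 2 * (3 ^ k * q ^ l)) := by
  obtain ⟨T, hQ, -, -, -, -⟩ := qdata hq hq7 hl
  have hc := three_case_ne hq hq7 l
  have hpar := qpar (l := l) hq4 hq hq7
  have ho : (3 ^ k * q ^ l) % 2 = 1 := by
    rw [Nat.mul_mod, pow_odd (by norm_num), pow_odd (by omega)]
  rintro (h | h | h | h)
  · rcases (show k = 1 ∨ 2 ≤ k by omega) with h1 | h1
    · subst h1
      have := C_low hs hQ hc (by rw [h]; ring)
      omega
    · exact A_low hs hQ hc h1 h
  · rcases (show k = 1 ∨ 2 ≤ k by omega) with h1 | h1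
    · subst h1
      exact C_up hs hQ hc hpar (by rw [h]; ring)
    · have := A_up hs hQ hc h1 h
      omega
  · rw [h] at hs
    obtain ⟨g1, g2⟩ := hs.half ho
    rcases (show k = 1 ∨ 2 ≤ k by omega) with h1 | h1
    · subst h1
      have := D_low g1 g2 hQ hc (by ring)
      omega
    · exact B_low g1 g2 hQ hc h1 rfl
  · obtain ⟨m, rfl⟩ : ∃ m, n = 2 * m := ⟨n / 2, by omega⟩
    have hm : m + 6 = 3 ^ k * q ^ l := by omega
    obtain ⟨g1, g2⟩ := hs.half (by omega)
    rcases (show k = 1 ∨ 2 ≤ k by omega) with h1 | h1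
    · subst h1
      exact D_up g1 g2 hq hq4 hq7 hl (by rw [hm]; ring)
    · have := B_up g1 g2 hQ hc h1 hm
      omega

/-- the exponents are not both even -/
lemma not_both_even {n p q k l : ℕ} (hs : Sol n) (hp : p.Prime) (hq : q.Prime)
    (hp2 : p % 2 = 1) (hq2 : q % 2 = 1) (hpq : p ≠ q) (hk : k % 2 = 0) (hl : l % 2 = 0) :
    ¬ (n = p ^ k * q ^ l ∨ n + 12 = p ^ k * q ^ l ∨ n = 2 * (p ^ k * q ^ l) ∨
      n + 12 = 2 * (p ^ k * q ^ l)) := by
  have hM8 : (p ^ k * q ^ l) % 8 = 1 := by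
    rw [Nat.mul_mod, pow_mod_eight_of_even hp2 hk, pow_mod_eight_of_even hq2 hl]
  have hcop : (p ^ k).Coprime (q ^ l) := Nat.Coprime.pow _ _ ((Nat.coprime_primes hp hq).2 hpq)
  have hsg : sg (p ^ k * q ^ l) % 2 = 1 := by
    rw [sg_mul hcop, Nat.mul_mod, sg_pow_mod_two hp hp2, sg_pow_mod_two hq hq2]
    have h1 : (k + 1) % 2 = 1 := by omega
    have h2 : (l + 1) % 2 = 1 := by omega
    rw [h1, h2]
  have ns5 : ∀ x : ℕ, x % 8 = 5 → ¬ IsSquare x := by
    rintro x hx ⟨w, rfl⟩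
    have : w % 8 = 0 ∨ w % 8 = 1 ∨ w % 8 = 2 ∨ w % 8 = 3 ∨ w % 8 = 4 ∨ w % 8 = 5 ∨ w % 8 = 6 ∨
      w % 8 = 7 := by omega
    rcases this with h | h | h | h | h | h | h | h <;> simp [Nat.mul_mod, h] at hx
  rintro (h | h | h | h)
  · have := two_dvd_sg (m := n + 12) (by omega) (ns5 _ (by omega))
    have h2 := hs.2
    rw [← h] at hsg
    omega
  · have := two_dvd_sg (m := n) (by omega) (ns5 _ (by omega))
    have h2 := hs.2
    rw [← h] at hsg
    omega
  · rw [h] at hs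
    obtain ⟨g1, g2⟩ := hs.half (by omega)
    have := four_dvd_sg (m := p ^ k * q ^ l + 6) (by omega)
    omega
  · obtain ⟨m, rfl⟩ : ∃ m, n = 2 * m := ⟨n / 2, by omega⟩
    have hm : m + 6 = p ^ k * q ^ l := by omega
    obtain ⟨g1, g2⟩ := hs.half (by omega)
    rw [← hm] at hsg
    have := four_dvd_sg (m := m) (by omega)
    omega

/-- the case `k = l = 1` -/
lemma one_one {n p q : ℕ} (hn : 500 ≤ n) (hs : Sol n) (hp : p.Prime) (hq : q.Prime)
    (hp2 : p % 2 = 1) (hq2 : q % 2 = 1) (hpq : p ≠ q)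
    (h : n = p * q ∨ n + 12 = p * q ∨ n = 2 * (p * q) ∨ n + 12 = 2 * (p * q)) : Quad n := by
  have hg := gg_two_primes hp hq hpq
  have ho : (p * q) % 2 = 1 := by rw [Nat.mul_mod, hp2, hq2]
  rcases h with h | h | h | h
  · exact Quad_of_gg (by omega) hs (by rw [h]; exact hg)
  · exact Quad_of_gg (by omega) hs (by rw [← hs.gg_eq, h]; exact hg)
  · exfalso
    rw [h] at hs
    obtain ⟨g1, g2⟩ := hs.half ho
    have s1 := sg_add_phi (p * q)
    have s2 := sg_add_phi (p * q + 6)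
    have : p * q + 6 ≤ 125 := gg_le_six (by omega) (by omega) (by omega)
    omega
  · exfalso
    obtain ⟨m, rfl⟩ : ∃ m, n = 2 * m := ⟨n / 2, by omega⟩
    have hm : m + 6 = p * q := by omega
    obtain ⟨g1, g2⟩ := hs.half (by omega)
    rw [← hm] at hg
    have s1 := sg_add_phi m
    have s2 := sg_add_phi (m + 6)
    omega

/-- for `N = 2M` the odd part is `1` modulo `3` -/
lemma mod_three {n M : ℕ} (hs : Sol n) (hM : M % 2 = 1) (hM3 : M % 3 ≠ 0)
    (h : n = 2 * M ∨ n + 12 = 2 * M) : M % 3 = 1 := by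
  by_contra hcon
  have h2 : M % 3 = 2 := by omega
  have s1 := three_dvd_sg h2
  rcases h with h | h
  · rw [h] at hs
    obtain ⟨g1, g2⟩ := hs.half hM
    have := three_dvd_sg (m := M + 6) (by omega)
    omega
  · obtain ⟨m, rfl⟩ : ∃ m, n = 2 * m := ⟨n / 2, by omega⟩
    have hm : m + 6 = M := by omega
    obtain ⟨g1, g2⟩ := hs.half (by omega)
    have := three_dvd_sg (m := m) (by omega)
    rw [← hm] at s1
    omega

/-- The shape of a composite solution of `φ(n+12) = φ(n)+12`, `σ(n+12) = σ(n)+12` that does not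
come from a prime quadruple. -/
theorem result (n : ℕ) (hn : 1 < n) (hcomp : ¬ n.Prime)
    (hφ : Nat.totient (n + 12) = Nat.totient n + 12)
    (hσ : ArithmeticFunction.sigma 1 (n + 12) = ArithmeticFunction.sigma 1 n + 12)
    (hquad : ¬ ∃ p : ℕ, p.Prime ∧ (p + 2).Prime ∧ (p + 6).Prime ∧ (p + 8).Prime ∧
      n = p * (p + 8)) :
    ∃ N e p q k l : ℕ, (N = n ∨ N = n + 12) ∧ N = e * (p ^ k * q ^ l) ∧
      (e = 1 ∨ (e = 2 ∧ (p ^ k * q ^ l) % 3 = 1)) ∧
      p.Prime ∧ q.Prime ∧ p ≠ q ∧ p % 4 = 3 ∧ q % 4 = 3 ∧ 7 ≤ p ∧ 7 ≤ q ∧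
      1 ≤ k ∧ Odd l ∧ 3 ≤ k + l := by
  have hs : Sol n := ⟨hφ, hσ⟩
  have hnq : ¬ Quad n := hquad
  have hn500 : 500 ≤ n := by
    by_contra hcon
    rcases small (by omega) hn hcomp hs with h | h
    · exact hnq ⟨5, by norm_num, by norm_num, by norm_num, by norm_num, by rw [h]⟩
    · exact hnq ⟨11, by norm_num, by norm_num, by norm_num, by norm_num, by rw [h]⟩
  -- one of the totients is not divisible by eight
  obtain ⟨N, hN, h8⟩ : ∃ N, (N = n ∨ N = n + 12) ∧ ¬ 8 ∣ φ N := by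
    by_cases h : 8 ∣ φ n
    · exact ⟨n + 12, Or.inr rfl, by omega⟩
    · exact ⟨n, Or.inl rfl, h⟩
  rcases classify (show 0 < N by omega) h8 with h | ⟨p, k, hp, hp2, hk, h⟩ |
    ⟨p, k, hp, hp2, hp8, hk, h⟩ | ⟨p, k, hp, hp4, hk, h⟩ |
    ⟨p, q, k, l, hp, hq, hp4, hq4, hpq, hk, hl, h⟩
  · omega
  · exfalso
    have hp3 : 3 ≤ p := by have := hp.two_le; omega
    rcases (show k = 1 ∨ 2 ≤ k by omega) with h1 | h1
    · subst h1
      rw [pow_one] at h
      rcases hN with h2 | h2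
      · exact hcomp (by rw [← h2, h]; exact hp)
      · have g0 : gg (n + 12) = 0 := by rw [← h2, h]; exact gg_prime hp
        rw [hs.gg_eq] at g0
        exact hcomp (gg_eq_zero hn g0)
    · rcases hN with h2 | h2
      · exact pk_low hs hp hp3 h1 (h2 ▸ h)
      · exact pk_up hs hn hp hp3 h1 (h2 ▸ h)
  · exfalso
    have ho := pow_odd (p := p) (k := k) hp2
    rcases hN with h2 | h2
    · have h3 : n = 2 * p ^ k := h2 ▸ h
      rw [h3] at hs
      obtain ⟨g1, g2⟩ := hs.half ho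
      exact two_pk_low g1 g2 hp hk rfl
    · have h3 : n + 12 = 2 * p ^ k := h2 ▸ h
      obtain ⟨m, rfl⟩ : ∃ m, n = 2 * m := ⟨n / 2, by omega⟩
      have hm : m + 6 = p ^ k := by omega
      obtain ⟨g1, g2⟩ := hs.half (by omega)
      exact two_pk_up (by omega) g1 g2 hp hp2 hp8 hk hm
  · exfalso
    rcases hN with h2 | h2
    · exact four_pk_low hs hp hp4 hk (h2 ▸ h)
    · exact four_pk_up hs hn hp hp4 hk (h2 ▸ h)
  · have hcases : ∀ a b : ℕ, (N = a * b ∨ N = 2 * (a * b)) →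
        (n = a * b ∨ n + 12 = a * b ∨ n = 2 * (a * b) ∨ n + 12 = 2 * (a * b)) := by
      intro a b hab
      rcases hN with h2 | h2 <;> rcases hab with h3 | h3
      · exact Or.inl (h2 ▸ h3)
      · exact Or.inr (Or.inr (Or.inl (h2 ▸ h3)))
      · exact Or.inr (Or.inl (h2 ▸ h3))
      · exact Or.inr (Or.inr (Or.inr (h2 ▸ h3)))
    have hpq' := hcases _ _ h
    have h' : N = q ^ l * p ^ k ∨ N = 2 * (q ^ l * p ^ k) := by
      rw [mul_comm (q ^ l)]; exact h
    have hqp' := hcases _ _ h'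
    have hp7 : 7 ≤ p := by
      by_contra hcon
      have : p = 3 := by omega
      subst this
      have hq7 : 7 ≤ q := by omega
      exact no_three hn500 hs hq hq4 hq7 hk hl hpq'
    have hq7 : 7 ≤ q := by
      by_contra hcon
      have : q = 3 := by omega
      subst this
      exact no_three hn500 hs hp hp4 hp7 hl hk hqp'
    have hne := not_both_even hs hp hq (by omega) (by omega) hpq (k := k) (l := l)
    have hkl : 3 ≤ k + l := by
      by_contra hcon
      have hk1 : k = 1 := by omega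
      have hl1 : l = 1 := by omega
      subst hk1; subst hl1
      simp only [pow_one] at hpq'
      exact hnq (one_one hn500 hs hp hq (by omega) (by omega) hpq hpq')
    -- the factor `e`
    have he : ∀ M : ℕ, M % 2 = 1 → M % 3 ≠ 0 → (N = M ∨ N = 2 * M) →
        ∃ e, N = e * M ∧ (e = 1 ∨ (e = 2 ∧ M % 3 = 1)) := by
      intro M hM2 hM3 hM
      rcases hM with h3 | h3
      · exact ⟨1, by rw [h3, one_mul], Or.inl rfl⟩
      · refine ⟨2, h3, Or.inr ⟨rfl, mod_three hs hM2 hM3 ?_⟩⟩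
        rcases hN with h2 | h2
        · exact Or.inl (h2 ▸ h3)
        · exact Or.inr (h2 ▸ h3)
    have hodd : (p ^ k * q ^ l) % 2 = 1 := by
      rw [Nat.mul_mod, pow_odd (by omega), pow_odd (by omega)]
    have h3nd : (p ^ k * q ^ l) % 3 ≠ 0 := by
      intro h0
      rcases (Nat.Prime.dvd_mul Nat.prime_three).1 (Nat.dvd_of_mod_eq_zero h0) with h3 | h3
      · exact three_case_ne hp hp7 k h3
      · exact three_case_ne hq hq7 l h3
    by_cases hlo : l % 2 = 1
    · obtain ⟨e, e1, e2⟩ := he _ hodd h3nd h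
      exact ⟨N, e, p, q, k, l, hN, e1, e2, hp, hq, hpq, hp4, hq4, hp7, hq7, hk,
        Nat.odd_iff.2 hlo, hkl⟩
    · have hko : k % 2 = 1 := by
        by_contra hcon
        exact hne (by omega) (by omega) hpq'
      obtain ⟨e, e1, e2⟩ := he (q ^ l * p ^ k) (by rw [mul_comm]; exact hodd)
        (by rw [mul_comm]; exact h3nd) h'
      exact ⟨N, e, q, p, l, k, hN, e1, e2, hq, hp, hpq.symm, hq4, hp4, hq7, hp7, hl,
        Nat.odd_iff.2 hko, by omega⟩

end Pool.Agent.Results.MP_9a9f07_nt.TwoPrimeShape
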